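import Pool.Agent.H51.ERA.Base
import Pool.Agent.H51.ERA.Stmts

/-!
MP_e0047e_lc, board `era`, module OPN: number of open nodes if no node is determined.
-/

set_option autoImplicit false

namespace Pool.Agent.H88.ERA

open Pool.Agent.H51.ERA

/-- All lists of booleans of length at most n. -/
def allL : ℕ → Finset (List Bool)
  | 0 => {[]}
  | n + 1 => insert [] ((allL n).image (List.cons true) ∪ (allL n).image (List.cons false))

theorem mem_allL (n : ℕ) (w : List Bool) (hw : w.length ≤ n) : w ∈ allL n := by
  induction n generalizing w with
  | zero =>
    have : w = [] := List.eq_nil_of_length_eq_zero (by omega)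
    simp [allL, this]
  | succ n ih =>
    cases w with
    | nil => simp [allL]
    | cons c w =>
      have h1 := ih w (by simp at hw; omega)
      simp only [allL, Finset.mem_insert, Finset.mem_union, Finset.mem_image]
      right
      cases c with
      | true => left; exact ⟨w, h1, rfl⟩
      | false => right; exact ⟨w, h1, rfl⟩

theorem card_allL (n : ℕ) : (allL n).card + 1 ≤ 2 ^ (n + 1) := by
  induction n with
  | zero => simp [allL]
  | succ n ih =>
    have h1 : (allL (n + 1)).card ≤
        ((allL n).image (List.cons true) ∪ (allL n).image (List.cons false)).card + 1 := by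
      simp only [allL]
      exact Finset.card_insert_le _ _
    have h2 := Finset.card_union_le ((allL n).image (List.cons true))
      ((allL n).image (List.cons false))
    have h3 : ((allL n).image (List.cons true)).card ≤ (allL n).card := Finset.card_image_le
    have h4 : ((allL n).image (List.cons false)).card ≤ (allL n).card := Finset.card_image_le
    have h5 : 2 ^ (n + 1 + 1) = 2 * 2 ^ (n + 1) := by ring
    omega

theorem open_parent (hNEST : NESTStmt) {s t : ℕ} {N : Type} {K : List (Sg N)} {i : ℕ} {c : Bool}
    {p : List Bool} (hn : IsNode s t i (c :: p)) (ho : Open s t K i (c :: p)) :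
    Open s t K i p := by
  obtain ⟨j, hj, h1, h2⟩ := ho
  obtain ⟨h3, h4⟩ := hNEST s t i p c hn
  exact ⟨j, hj, by omega, by omega⟩

theorem open_drop (hNEST : NESTStmt) {s t : ℕ} {N : Type} {K : List (Sg N)} {i : ℕ}
    {p : List Bool} (hn : IsNode s t i p) (ho : Open s t K i p) (j : ℕ) :
    IsNode s t i (p.drop j) ∧ Open s t K i (p.drop j) := by
  induction j with
  | zero => exact ⟨by simpa using hn, by simpa using ho⟩
  | succ j ih =>
    obtain ⟨h1, h2⟩ := ih
    rw [← List.tail_drop]
    cases hq : p.drop j with
    | nil => rw [hq] at h1 h2; exact ⟨by simpa using h1, by simpa using h2⟩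
    | cons c q =>
      rw [hq] at h1 h2
      refine ⟨⟨h1.1, ?_⟩, ?_⟩
      · have := h1.2; simp at this ⊢; omega
      · simpa using open_parent hNEST h1 h2

theorem OPN_thm (hUSE : USEStmt) (hSCNT : SCNTStmt) (hECNT : ECNTStmt) (hNEST : NESTStmt) :
    OPNStmt := by
  classical
  intro N Q _ L rho sys hL s t b q K hs hcut hyl hund O hO
  set Sset : Finset (ℕ × List Bool) :=
    (O.biUnion (fun ν => (Finset.range (s + 1)).image (fun j => (ν.1, ν.2.drop j)))).filter
      (fun ν => ∃ j < K.length, SAt s t K j ν.1 ν.2) with hSset
  have hnodes : ∀ ν ∈ O, ∀ j, IsNode s t ν.1 (ν.2.drop j) ∧ Und s t K ν.1 (ν.2.drop j) ∧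
      Open s t K ν.1 (ν.2.drop j) := by
    intro ν hν j
    obtain ⟨h1, h2, h3⟩ := hO ν hν
    obtain ⟨h4, h5⟩ := open_drop hNEST h1 h3 j
    refine ⟨h4, hund _ _ h4 ?_, h5⟩
    rw [List.length_drop]; omega
  have hScard : Sset.card ≤ Fintype.card N * (DD t + 1) := by
    refine hSCNT N Q L rho sys hL s t b q K hcut hyl Sset ?_
    intro ν hν
    rw [hSset, Finset.mem_filter, Finset.mem_biUnion] at hν
    obtain ⟨⟨μ, hμ, hμ2⟩, hsat⟩ := hν
    rw [Finset.mem_image] at hμ2
    obtain ⟨j, _, hj⟩ := hμ2
    refine ⟨?_, hsat⟩
    rw [← hj]
    exact (hnodes μ hμ j).1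
  set roots : Finset (ℕ × List Bool) := (Finset.range (kk s)).image (fun i => (i, ([] : List Bool)))
    with hroots
  have hRcard : roots.card ≤ kk s := by
    have : roots.card ≤ (Finset.range (kk s)).card := Finset.card_image_le
    simpa using this
  have hsub : O ⊆ ((allL s) ×ˢ (Sset ∪ roots)).image
      (fun x : List Bool × (ℕ × List Bool) => (x.2.1, x.1 ++ x.2.2)) := by
    intro ν hν
    rw [Finset.mem_image]
    obtain ⟨h1, h2, h3⟩ := hO ν hν
    by_cases hlen : ν.2.length ≤ s
    · refine ⟨(ν.2, (ν.1, [])), ?_, by simp⟩
      rw [Finset.mem_product]
      refine ⟨mem_allL s _ hlen, ?_⟩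
      rw [Finset.mem_union]
      right
      rw [hroots, Finset.mem_image]
      exact ⟨ν.1, Finset.mem_range.2 h1.1, rfl⟩
    · have hex : ∃ j ≤ s, ∃ j' < K.length, SAt s t K j' ν.1 (ν.2.drop j) := by
        by_contra hno
        push Not at hno
        have hE : ∀ j ≤ s, ∃ j' < K.length, EAt s t K j' ν.1 (ν.2.drop j) := by
          intro j hj
          obtain ⟨h4, h5, h6⟩ := hnodes ν hν j
          rcases hUSE s t N K ν.1 (ν.2.drop j) h5 h6 with ⟨j', hj', hS⟩ | hE
          · exact absurd hS (hno j hj j' hj')
          · exact hE
        have hinj : Set.InjOn (fun j => (ν.1, ν.2.drop j)) (Finset.range (s + 1) : Set ℕ) := by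
          intro x hx y hy hxy
          simp only [Finset.coe_range, Set.mem_Iio] at hx hy
          have := congrArg (fun μ : ℕ × List Bool => μ.2.length) hxy
          simp only [List.length_drop] at this
          omega
        have hc : ((Finset.range (s + 1)).image (fun j => (ν.1, ν.2.drop j))).card = s + 1 := by
          rw [Finset.card_image_of_injOn hinj, Finset.card_range]
        have hle := hECNT N Q L rho sys hL s t b q K hcut hyl
          ((Finset.range (s + 1)).image (fun j => (ν.1, ν.2.drop j))) (by
            intro μ hμ
            rw [Finset.mem_image] at hμ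
            obtain ⟨j, hj, rfl⟩ := hμ
            rw [Finset.mem_range] at hj
            exact ⟨(hnodes ν hν j).1, hE j (by omega)⟩) (by
            intro μ hμ μ' hμ' hper
            rw [Finset.mem_image] at hμ hμ'
            obtain ⟨j, hj, rfl⟩ := hμ
            obtain ⟨j', hj', rfl⟩ := hμ'
            rw [Finset.mem_range] at hj hj'
            have e1 : ν.2.drop j ≠ [] := by
              intro h
              have := congrArg List.length h
              rw [List.length_drop] at this
              simp at this
              omega
            have e2 : ν.2.drop j' ≠ [] := by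
              intro h
              have := congrArg List.length h
              rw [List.length_drop] at this
              simp at this
              omega
            simp only [per, if_neg e1, if_neg e2, List.length_drop] at hper
            have hmod : (ν.2.length - j) % (s + 1) = (ν.2.length - j') % (s + 1) := by omega
            have hjj : j = j' := by
              rcases Nat.lt_trichotomy j j' with h | h | h
              · exfalso
                have e3 : ν.2.length - j = ν.2.length - j' + (j' - j) := by omega
                have e4 : (ν.2.length - j' + (j' - j)) ≡ (ν.2.length - j' + 0) [MOD (s + 1)] := by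
                  unfold Nat.ModEq
                  rw [← e3, add_zero]
                  exact hmod
                have e5 := Nat.ModEq.add_left_cancel' _ e4
                have e6 : (j' - j) % (s + 1) = 0 := by
                  have := e5
                  unfold Nat.ModEq at this
                  simpa using this
                rw [Nat.mod_eq_of_lt (by omega)] at e6
                omega
              · exact h
              · exfalso
                have e3 : ν.2.length - j' = ν.2.length - j + (j - j') := by omega
                have e4 : (ν.2.length - j + (j - j')) ≡ (ν.2.length - j + 0) [MOD (s + 1)] := by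
                  unfold Nat.ModEq
                  rw [← e3, add_zero]
                  exact hmod.symm
                have e5 := Nat.ModEq.add_left_cancel' _ e4
                have e6 : (j - j') % (s + 1) = 0 := by
                  have := e5
                  unfold Nat.ModEq at this
                  simpa using this
                rw [Nat.mod_eq_of_lt (by omega)] at e6
                omega
            rw [hjj])
        rw [hc] at hle
        omega
      obtain ⟨j, hj, hS⟩ := hex
      refine ⟨(ν.2.take j, (ν.1, ν.2.drop j)), ?_, by simp⟩
      rw [Finset.mem_product]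
      refine ⟨mem_allL s _ (by rw [List.length_take]; omega), ?_⟩
      rw [Finset.mem_union]
      left
      rw [hSset, Finset.mem_filter, Finset.mem_biUnion]
      exact ⟨⟨ν, hν, Finset.mem_image.2 ⟨j, Finset.mem_range.2 (by omega), rfl⟩⟩, hS⟩
  have hcard1 := Finset.card_le_card hsub
  have hcard2 : (((allL s) ×ˢ (Sset ∪ roots)).image
      (fun x : List Bool × (ℕ × List Bool) => (x.2.1, x.1 ++ x.2.2))).card ≤
      ((allL s) ×ˢ (Sset ∪ roots)).card := Finset.card_image_le
  rw [Finset.card_product] at hcard2
  have hcard3 := Finset.card_union_le Sset roots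
  have hcard4 := card_allL s
  have h5 : (Sset ∪ roots).card ≤ s * (DD t + 1) + kk s := by
    rw [← hs] at hScard
    omega
  calc O.card ≤ (allL s).card * (Sset ∪ roots).card := le_trans hcard1 hcard2
    _ ≤ 2 ^ (s + 1) * (s * (DD t + 1) + kk s) := Nat.mul_le_mul (by omega) h5
    _ = Ob s t := by unfold Ob; ring

end Pool.Agent.H88.ERA
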